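import Pool.Agent.Q293.HF.Stm

/-!
# The parametrisation near the section at infinity is continuous and open
-/

set_option autoImplicit false

open Topology Filter
open scoped LinearAlgebra.Projectivization

namespace Pool.Agent.Q94.HF.OI

open Pool.Agent.Q293.HF Pool.Agent.Helper922.HB

/-- parameters `(z, t, X)` -/
abbrev EE : Type := {e : ℂ × ℂ × (Fin 3 → ℂ) // e.1 ≠ 0 ∧ e.2.2 ≠ 0 ∧ We e.2.1 e.2.2}

/-- the point with the given parameters -/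
noncomputable def Th {n : ℕ} {φ : Fin 3 → ℂ → Fin n → ℂ} (h : Emb φ) (e : EE) : XX φ :=
  ⟨(e.1.2.1, Projectivization.mk ℂ (Ph φ e.1.1 e.1.2.2) (Ph_ne h e.2.1 e.2.2.1)),
    e.1.1, e.1.2.2, _, e.2.1, e.2.2.1, e.2.2.2, rfl⟩

theorem we_vecI (e : Vi) : We e.1.1 (vecI e.1.1 e.1.2) := by
  have := sq_ne e
  simp only [We, vecI, Matrix.cons_val_zero, Matrix.cons_val_one, Matrix.cons_val]
  rw [this]
  ring

/-- parameters of a point near the section at infinity -/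
noncomputable def Jm (e : Cs × Vi) : EE :=
  ⟨(e.1.1, e.2.1.1, vecI e.2.1.1 e.2.1.2), e.1.2, vecI_ne e.2, we_vecI e.2⟩

theorem ptI_eq {n : ℕ} {φ : Fin 3 → ℂ → Fin n → ℂ} (h : Emb φ) (e : Cs × Vi) : ptI h e = Th h (Jm e) := rfl

theorem slit (e : Vi) : 1 + e.1.1 * e.1.2 ^ 6 ∈ Complex.slitPlane :=
  Complex.mem_slitPlane_of_norm_lt_one (lt_trans e.2 (by norm_num))

theorem cont_J : Continuous Jm := by
  unfold Jm
  refine Continuous.subtype_mk ?_ _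
  refine Continuous.prodMk (by fun_prop) (Continuous.prodMk (by fun_prop) ?_)
  rw [continuous_pi_iff]
  intro i
  fin_cases i
  · simp only [vecI]
    show Continuous fun e : Cs × Vi => e.2.1.2 ^ 3
    fun_prop
  · simp only [vecI]
    show Continuous fun e : Cs × Vi => e.2.1.2
    fun_prop
  · show Continuous fun e : Cs × Vi => (1 + e.2.1.1 * e.2.1.2 ^ 6) ^ (1 / 2 : ℂ)
    refine Continuous.cpow (by fun_prop) continuous_const ?_
    intro e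
    exact slit e.2

/-- `1 - t a²` -/
noncomputable def vv (e : EE) : ℂ := 1 - e.1.2.1 * (e.1.2.2 0 / e.1.2.2 2) ^ 2

/-- `(1 - t a²)^(-1/2)` -/
noncomputable def cs (e : EE) : ℂ := ((vv e)⁻¹) ^ (1 / 2 : ℂ)

/-- the coordinate `w` -/
noncomputable def ww (e : EE) : ℂ := e.1.2.2 1 / e.1.2.2 2 * cs e

open Classical in
/-- the local inverse -/
noncomputable def Rm (e₀ : Cs × Vi) (e : EE) : Cs × Vi :=
  (⟨e.1.1, e.2.1⟩, if h : ‖e.1.2.1 * (ww e) ^ 6‖ < 1 / 2 then ⟨(e.1.2.1, ww e), h⟩ else e₀.2)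

theorem cs_sq (e : EE) : cs e ^ 2 = (vv e)⁻¹ := by
  unfold cs
  rw [← Complex.cpow_nat_mul]
  norm_num

theorem Ph_smul {n : ℕ} (φ : Fin 3 → ℂ → Fin n → ℂ) (z l : ℂ) (X : Fin 3 → ℂ) :
    Ph φ z (l • X) = l • Ph φ z X := by
  funext p
  simp only [Ph, Pi.smul_apply, smul_eq_mul]
  ring

theorem vec_eq (e : EE) (h2 : e.1.2.2 2 ≠ 0) (hv : vv e ≠ 0) :
    vecI e.1.2.1 (ww e) = (cs e / e.1.2.2 2) • e.1.2.2 := by
  have hw := e.2.2.2
  unfold We at hw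
  have hc := cs_sq e
  have hc' : cs e ^ 2 * vv e = 1 := by rw [hc]; exact inv_mul_cancel₀ hv
  set X := e.1.2.2
  set t := e.1.2.1
  have hab : (X 1 / X 2) ^ 3 = (X 0 / X 2) * vv e := by
    have : vv e = 1 - t * (X 0 / X 2) ^ 2 := rfl
    rw [this]
    field_simp
    linear_combination -hw
  have h3 : ww e ^ 3 = (X 0 / X 2) * cs e := by
    have : ww e = X 1 / X 2 * cs e := rfl
    rw [this, mul_pow, hab]
    linear_combination (X 0 / X 2) * cs e * hc'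
  have h6 : 1 + t * ww e ^ 6 = (vv e)⁻¹ := by
    have : ww e ^ 6 = (ww e ^ 3) ^ 2 := by ring
    rw [this, h3, ← hc, mul_pow]
    have hv' : vv e = 1 - t * (X 0 / X 2) ^ 2 := rfl
    rw [hv'] at hc'
    linear_combination -hc'
  funext i
  fin_cases i
  · show ww e ^ 3 = cs e / X 2 * X 0
    rw [h3]
    ring
  · show ww e = cs e / X 2 * X 1
    have : ww e = X 1 / X 2 * cs e := rfl
    rw [this]
    ring
  · show (1 + t * ww e ^ 6) ^ (1 / 2 : ℂ) = cs e / X 2 * X 2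
    rw [h6, div_mul_cancel₀ _ h2]
    rfl

theorem th_eq {n : ℕ} {φ : Fin 3 → ℂ → Fin n → ℂ} (h : Emb φ) (e₀ : Cs × Vi) (e : EE) (h2 : e.1.2.2 2 ≠ 0)
    (hv : vv e ≠ 0) (hs : ‖e.1.2.1 * (ww e) ^ 6‖ < 1 / 2) : Th h (Jm (Rm e₀ e)) = Th h e := by
  have hR : Rm e₀ e = (⟨e.1.1, e.2.1⟩, ⟨(e.1.2.1, ww e), hs⟩) := by
    unfold Rm
    rw [dif_pos hs]
  rw [hR]
  apply Subtype.ext
  apply Prod.ext
  · rfl
  · have hc : cs e / e.1.2.2 2 ≠ 0 := by
      apply div_ne_zero _ h2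
      intro h0
      have := cs_sq e
      rw [h0] at this
      exact inv_ne_zero hv (by rw [← this]; ring)
    show Projectivization.mk ℂ (Ph φ e.1.1 (vecI e.1.2.1 (ww e))) _ = Projectivization.mk ℂ (Ph φ e.1.1 e.1.2.2) _
    rw [Projectivization.mk_eq_mk_iff]
    refine ⟨Units.mk0 _ hc, ?_⟩
    rw [vec_eq e h2 hv, Ph_smul]
    rfl

theorem vv_J (e : Cs × Vi) : vv (Jm e) = (1 + e.2.1.1 * e.2.1.2 ^ 6)⁻¹ := by
  have hs := sq_ne e.2
  have hne : (1 + e.2.1.1 * e.2.1.2 ^ 6) ≠ 0 := Complex.slitPlane_ne_zero (slit e.2)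
  have h2 : (1 + e.2.1.1 * e.2.1.2 ^ 6) ^ (1 / 2 : ℂ) ≠ 0 := by
    intro h0
    rw [h0] at hs
    exact hne (by rw [← hs]; ring)
  show 1 - e.2.1.1 * (e.2.1.2 ^ 3 / (1 + e.2.1.1 * e.2.1.2 ^ 6) ^ (1 / 2 : ℂ)) ^ 2 = _
  rw [div_pow, hs]
  field_simp
  ring

theorem X2_J (e : Cs × Vi) : (Jm e).1.2.2 2 ≠ 0 := by
  have hs := sq_ne e.2
  have hne : (1 + e.2.1.1 * e.2.1.2 ^ 6) ≠ 0 := Complex.slitPlane_ne_zero (slit e.2)
  show (1 + e.2.1.1 * e.2.1.2 ^ 6) ^ (1 / 2 : ℂ) ≠ 0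
  intro h0
  rw [h0] at hs
  exact hne (by rw [← hs]; ring)

theorem ww_J (e : Cs × Vi) : ww (Jm e) = e.2.1.2 := by
  have h2 := X2_J e
  have hc : cs (Jm e) = (Jm e).1.2.2 2 := by
    unfold cs
    rw [vv_J, inv_inv]
    rfl
  unfold ww
  rw [hc, div_mul_cancel₀ _ h2]
  rfl

theorem cont_ww (e : Cs × Vi) : ContinuousAt vv (Jm e) ∧ ContinuousAt ww (Jm e) := by
  have hX : ∀ i, Continuous fun e : EE => e.1.2.2 i := fun i => by fun_prop
  have ht : Continuous fun e : EE => e.1.2.1 := by fun_prop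
  have hv : ContinuousAt vv (Jm e) := by
    unfold vv
    exact continuousAt_const.sub (ht.continuousAt.mul (((hX 0).continuousAt.div (hX 2).continuousAt (X2_J e)).pow 2))
  refine ⟨hv, ?_⟩
  have hne : vv (Jm e) ≠ 0 := by
    rw [vv_J]
    exact inv_ne_zero (Complex.slitPlane_ne_zero (slit e.2))
  have hc : ContinuousAt cs (Jm e) := by
    have h1 : ContinuousAt (fun x => (vv x)⁻¹) (Jm e) := hv.inv₀ hne
    have h2 : ContinuousAt (fun x : ℂ => x ^ (1 / 2 : ℂ)) ((vv (Jm e))⁻¹) := by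
      apply continuousAt_cpow_const
      rw [vv_J, inv_inv]
      exact slit e.2
    exact ContinuousAt.comp (f := fun x => (vv x)⁻¹) (g := fun x : ℂ => x ^ (1 / 2 : ℂ)) h2 h1
  unfold ww
  exact ((hX 1).continuousAt.div (hX 2).continuousAt (X2_J e)).mul hc

theorem oi (h : S_QO) (_h1 : S_PCO) : S_OI := by
  intro n φ hE
  obtain ⟨hc, ho⟩ := h n φ hE (Th hE) (fun e => ⟨rfl, Ph_ne hE e.2.1 e.2.2.1, rfl⟩)
  refine ⟨hc.comp cont_J, IsOpenMap.of_nhds_le fun e₀ => ?_⟩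
  obtain ⟨hv, hw⟩ := cont_ww e₀
  have hX : Continuous fun e : EE => e.1.2.2 2 := by fun_prop
  have ht : Continuous fun e : EE => e.1.2.1 := by fun_prop
  have hvne : vv (Jm e₀) ≠ 0 := by
    rw [vv_J]
    exact inv_ne_zero (Complex.slitPlane_ne_zero (slit e₀.2))
  have ev1 : ∀ᶠ e in 𝓝 (Jm e₀), e.1.2.2 2 ≠ 0 := hX.continuousAt.eventually_ne (X2_J e₀)
  have ev2 : ∀ᶠ e in 𝓝 (Jm e₀), vv e ≠ 0 := hv.eventually_ne hvne
  have hn : ContinuousAt (fun e : EE => ‖e.1.2.1 * (ww e) ^ 6‖) (Jm e₀) :=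
    (ht.continuousAt.mul (hw.pow 6)).norm
  have ev3 : ∀ᶠ e in 𝓝 (Jm e₀), ‖e.1.2.1 * (ww e) ^ 6‖ < 1 / 2 := by
    apply hn.eventually_lt continuousAt_const
    simp only [ww_J]
    exact e₀.2.2
  have hR : Tendsto (Rm e₀) (𝓝 (Jm e₀)) (𝓝 e₀) := by
    have : e₀ = (e₀.1, e₀.2) := rfl
    rw [this, nhds_prod_eq]
    refine Tendsto.prodMk ?_ ?_
    · rw [tendsto_subtype_rng]
      show Tendsto (fun e : EE => e.1.1) (𝓝 (Jm e₀)) (𝓝 (e₀.1 : ℂ))
      have : Continuous fun e : EE => e.1.1 := by fun_prop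
      exact this.tendsto (Jm e₀)
    · rw [tendsto_subtype_rng]
      have h1 : Tendsto (fun e : EE => (e.1.2.1, ww e)) (𝓝 (Jm e₀)) (𝓝 (e₀.2 : ℂ × ℂ)) := by
        have h2 : (e₀.2 : ℂ × ℂ) = ((Jm e₀).1.2.1, ww (Jm e₀)) := by
          rw [ww_J]
          rfl
        rw [h2]
        exact ht.continuousAt.prodMk hw
      refine h1.congr' ?_
      filter_upwards [ev3] with e he
      show (e.1.2.1, ww e) = ((Rm e₀ e).2 : ℂ × ℂ)
      unfold Rm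
      simp only [dif_pos he]
  calc 𝓝 (ptI hE e₀) = 𝓝 (Th hE (Jm e₀)) := rfl
    _ ≤ map (Th hE) (𝓝 (Jm e₀)) := ho.nhds_le (Jm e₀)
    _ = map (fun e => ptI hE (Rm e₀ e)) (𝓝 (Jm e₀)) := by
        apply Filter.map_congr
        filter_upwards [ev1, ev2, ev3] with e he1 he2 he3
        exact (th_eq hE e₀ e he1 he2 he3).symm
    _ = map (ptI hE) (map (Rm e₀) (𝓝 (Jm e₀))) := by
        rw [Filter.map_map]
        rfl
    _ ≤ map (ptI hE) (𝓝 e₀) := Filter.map_mono hR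

end Pool.Agent.Q94.HF.OI
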